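import Mathlib
import Pool.Agent.H410R2.MStubs

/-! Certificate (task APPa of TEAM-MT): totients divisible by `36 ^ t / 2` and `36 ^ t / 3`. -/

namespace Pool.Agent.H307R2.CertA

/-- exponents `(i, j)` and a primitive-type witness `g` for the primes `2 ^ i * 3 ^ j + 1` -/
def WL : List (ℕ × ℕ × ℕ) := [(80, 57, 11), (80, 32, 5), (80, 13, 7), (78, 5, 5), (76, 11, 5), (74, 21, 5), (72, 71, 5), (72, 29, 7), (72, 7, 5), (70, 57, 5), (68, 60, 5), (68, 7, 5), (66, 25, 5), (66, 7, 13), (66, 1, 10), (64, 41, 43), (64, 5, 11), (64, 3, 5), (60, 59, 5), (60, 53, 7), (60, 43, 5), (58, 57, 5), (58, 54, 5), (56, 25, 7), (56, 12, 5), (56, 3, 5), (54, 43, 13), (54, 38, 7), (54, 31, 13), (54, 29, 5), (54, 19, 11), (52, 35, 5), (52, 21, 7), (52, 15, 5), (50, 42, 7), (50, 38, 5), (50, 18, 7), (50, 9, 5), (50, 3, 11), (48, 19, 5), (48, 4, 5), (46, 6, 7), (46, 3, 7), (44, 40, 5), (44, 27, 5), (44, 8, 10), (44, 3, 5), (42, 41, 5), (42, 29, 5), (42, 2, 5),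 (40, 21, 7), (40, 16, 31), (40, 3, 5), (38, 26, 5), (38, 14, 11), (36, 11, 5), (36, 7, 5), (36, 4, 5), (36, 1, 22), (34, 22, 5), (32, 15, 5), (32, 9, 11), (32, 4, 10), (30, 23, 7), (30, 22, 7), (30, 13, 5), (30, 7, 11), (30, 1, 5), (28, 17, 11), (28, 15, 5), (28, 12, 5), (28, 8, 5), (26, 3, 13), (24, 20, 7), (24, 19, 5), (24, 5, 7), (22, 3, 7), (20, 8, 5), (20, 3, 5), (18, 17, 5), (18, 14, 5), (18, 5, 5), (18, 1, 10), (16, 11, 5), (16, 4, 5), (16, 3, 5), (16, 0, 3), (14, 2, 10), (12, 11, 5), (12, 5, 7), (12, 4, 5), (12, 1, 11), (10, 6, 5), (8, 1, 11), (8, 0, 3), (6, 2, 5), (6, 1, 5), (4, 4, 10), (4, 3, 5), (4, 0, 3), (2, 2, 2), (2, 1, 2)]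

/-- iterated squaring -/
def sqI (p : ℕ) : ℕ → ℕ → ℕ
  | 0, x => x
  | i + 1, x => sqI p i (x * x % p)

/-- iterated cubing -/
def cuI (p : ℕ) : ℕ → ℕ → ℕ
  | 0, x => x
  | j + 1, x => cuI p j (x * x * x % p)

lemma sqI_eq (p : ℕ) : ∀ i x : ℕ, ((sqI p i x : ℕ) : ZMod p) = (x : ZMod p) ^ (2 ^ i)
  | 0, x => by simp [sqI]
  | i + 1, x => by
    rw [sqI, sqI_eq p i, ZMod.natCast_mod, Nat.cast_mul, ← sq, ← pow_mul, pow_succ' 2 i]

lemma cuI_eq (p : ℕ) : ∀ j x : ℕ, ((cuI p j x : ℕ) : ZMod p) = (x : ZMod p) ^ (3 ^ j)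
  | 0, x => by simp [cuI]
  | j + 1, x => by
    rw [cuI, cuI_eq p j, ZMod.natCast_mod, Nat.cast_mul, Nat.cast_mul, ← pow_three', ← pow_mul,
      pow_succ' 3 j]

/-- the test -/
def tst (w : ℕ × ℕ × ℕ) : Bool :=
  let p := 2 ^ w.1 * 3 ^ w.2.1 + 1
  let y := sqI p (w.1 - 1) (cuI p w.2.1 w.2.2)
  let z := cuI p (w.2.1 - 1) (sqI p w.1 w.2.2)
  decide (1 ≤ w.1) && (y * y % p == 1) && (y % p != 1) && ((w.2.1 == 0) || (z % p != 1))

lemma prime_of_tst {w : ℕ × ℕ × ℕ} (h : tst w = true) :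
    (2 ^ w.1 * 3 ^ w.2.1 + 1).Prime := by
  obtain ⟨i, j, g⟩ := w
  simp only [tst, Bool.and_eq_true, decide_eq_true_eq, beq_iff_eq, bne_iff_ne, ne_eq,
    Bool.or_eq_true] at h
  obtain ⟨⟨⟨hi, h1⟩, h2⟩, h3⟩ := h
  simp only
  set p := 2 ^ i * 3 ^ j + 1 with hp
  have hp1 : p - 1 = 2 ^ i * 3 ^ j := by omega
  have hp3 : 1 < p := by
    have : 0 < 2 ^ i * 3 ^ j := by positivity
    omega
  have hmod1 : 1 % p = 1 := Nat.mod_eq_of_lt hp3
  have e1 : ((sqI p (i - 1) (cuI p j g) : ℕ) : ZMod p) = (g : ZMod p) ^ (3 ^ j * 2 ^ (i - 1)) := by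
    rw [sqI_eq, cuI_eq, ← pow_mul]
  have e2 : ((cuI p (j - 1) (sqI p i g) : ℕ) : ZMod p) = (g : ZMod p) ^ (2 ^ i * 3 ^ (j - 1)) := by
    rw [cuI_eq, sqI_eq, ← pow_mul]
  have hi2 : 2 ^ i = 2 * 2 ^ (i - 1) := by
    rw [← pow_succ']; congr 1; omega
  refine lucas_primality p (g : ZMod p) ?_ ?_
  · rw [hp1]
    have e3 : (g : ZMod p) ^ (2 ^ i * 3 ^ j) = ((g : ZMod p) ^ (3 ^ j * 2 ^ (i - 1))) *
        ((g : ZMod p) ^ (3 ^ j * 2 ^ (i - 1))) := by
      rw [← pow_add]; congr 1; rw [hi2]; ring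
    rw [e3, ← e1, ← Nat.cast_mul]
    have : ((sqI p (i - 1) (cuI p j g) * sqI p (i - 1) (cuI p j g) : ℕ) : ZMod p) =
        ((1 : ℕ) : ZMod p) := by
      rw [ZMod.natCast_eq_natCast_iff']
      rw [h1, hmod1]
    rw [this, Nat.cast_one]
  · intro q hq hqd
    rw [hp1] at hqd ⊢
    rcases (Nat.Prime.dvd_mul hq).1 hqd with h | h
    · have hq2 : q = 2 := (Nat.prime_dvd_prime_iff_eq hq Nat.prime_two).1 (hq.dvd_of_dvd_pow h)
      subst hq2
      have e4 : 2 ^ i * 3 ^ j / 2 = 3 ^ j * 2 ^ (i - 1) := by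
        rw [hi2, mul_assoc, Nat.mul_div_cancel_left _ (by norm_num)]; ring
      rw [e4, ← e1]
      intro h5
      apply h2
      have : ((sqI p (i - 1) (cuI p j g) : ℕ) : ZMod p) = ((1 : ℕ) : ZMod p) := by
        rw [h5, Nat.cast_one]
      rw [ZMod.natCast_eq_natCast_iff'] at this
      rw [this, hmod1]
    · have hq3 : q = 3 := (Nat.prime_dvd_prime_iff_eq hq Nat.prime_three).1 (hq.dvd_of_dvd_pow h)
      subst hq3
      have hj : j ≠ 0 := by
        rintro rfl
        simp at h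
      have h3' := h3.resolve_left hj
      have e4 : 2 ^ i * 3 ^ j / 3 = 2 ^ i * 3 ^ (j - 1) := by
        have : 3 ^ j = 3 * 3 ^ (j - 1) := by
          rw [← pow_succ']; congr 1; omega
        rw [this, Nat.mul_left_comm, Nat.mul_div_cancel_left _ (by norm_num)]
      rw [e4, ← e2]
      intro h5
      apply h3'
      have : ((cuI p (j - 1) (sqI p i g) : ℕ) : ZMod p) = ((1 : ℕ) : ZMod p) := by
        rw [h5, Nat.cast_one]
      rw [ZMod.natCast_eq_natCast_iff'] at this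
      rw [this, hmod1]

lemma WL_tst : WL.all tst = true := by decide +kernel

/-- exponent pairs -/
def EL : List (ℕ × ℕ) := WL.map fun w => (w.1, w.2.1)

/-- the prime -/
def pp (a : ℕ × ℕ) : ℕ := 2 ^ a.1 * 3 ^ a.2 + 1

lemma pp_prime {a : ℕ × ℕ} (ha : a ∈ EL) : (pp a).Prime := by
  rw [EL, List.mem_map] at ha
  obtain ⟨w, hw, rfl⟩ := ha
  have := List.all_eq_true.1 WL_tst w hw
  exact prime_of_tst this

lemma EL_nodup : (EL.map pp).Nodup := by decide +kernel

lemma EL_big : ∀ a ∈ EL, pp a ≠ 3 ∧ pp a ≠ 7 ∧ a.2 ≤ a.1 := by decide +kernel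

lemma EL_prod : 3 * (EL.map pp).prod < 4 * (EL.map fun a => 2 ^ a.1 * 3 ^ a.2).prod := by
  decide +kernel

/-- subset sum condition -/
def cnd : List (ℕ × ℕ) → Prop
  | [] => True
  | x :: L => x.1 % 2 = 0 ∧ x.1 / 2 ≤ 1 + (L.map fun a => a.1 / 2).sum ∧ cnd L

instance decCnd : ∀ L : List (ℕ × ℕ), Decidable (cnd L)
  | [] => isTrue trivial
  | _ :: L => by
    haveI := decCnd L
    unfold cnd
    infer_instance

lemma EL_cnd : cnd EL := by decide +kernel

lemma EL_sum : (EL.map fun a => a.1 / 2).sum = 2027 := by decide +kernel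

lemma sub_exists : ∀ (L : List (ℕ × ℕ)), cnd L → ∀ s ≤ (L.map fun a => a.1 / 2).sum,
    ∃ l : List (ℕ × ℕ), l.Sublist L ∧ (l.map Prod.fst).sum = 2 * s
  | [], _, s, hs => by
    simp at hs
    subst hs
    exact ⟨[], List.Sublist.refl _, rfl⟩
  | x :: L, hc, s, hs => by
    obtain ⟨h1, h2, h3⟩ := hc
    simp only [List.map_cons, List.sum_cons] at hs
    by_cases h : s ≤ (L.map fun a => a.1 / 2).sum
    · obtain ⟨l, hl, hl2⟩ := sub_exists L h3 s h
      exact ⟨l, hl.cons x, hl2⟩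
    · obtain ⟨l, hl, hl2⟩ := sub_exists L h3 (s - x.1 / 2) (by omega)
      refine ⟨x :: l, hl.cons_cons x, ?_⟩
      simp only [List.map_cons, List.sum_cons, hl2]
      omega

lemma sub_prod {L l : List (ℕ × ℕ)} (h : l.Sublist L) :
    (l.map pp).prod * (L.map fun a => 2 ^ a.1 * 3 ^ a.2).prod ≤
      (L.map pp).prod * (l.map fun a => 2 ^ a.1 * 3 ^ a.2).prod := by
  induction h with
  | slnil => simp
  | cons x _ ih =>
    simp only [List.map_cons, List.prod_cons]
    have : 2 ^ x.1 * 3 ^ x.2 ≤ pp x := Nat.le_succ _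
    calc _ = (2 ^ x.1 * 3 ^ x.2) * _ := by ring
      _ ≤ pp x * _ := Nat.mul_le_mul this ih
      _ = _ := by ring
  | cons_cons x _ ih =>
    simp only [List.map_cons, List.prod_cons]
    calc _ = (pp x * (2 ^ x.1 * 3 ^ x.2)) * _ := by ring
      _ ≤ (pp x * (2 ^ x.1 * 3 ^ x.2)) * _ := Nat.mul_le_mul_left _ ih
      _ = _ := by ring

lemma prod_q (l : List (ℕ × ℕ)) : (l.map fun a => 2 ^ a.1 * 3 ^ a.2).prod =
    2 ^ (l.map Prod.fst).sum * 3 ^ (l.map Prod.snd).sum := by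
  induction l with
  | nil => simp
  | cons x l ih =>
    simp only [List.map_cons, List.prod_cons, List.sum_cons, ih, pow_add]
    ring

lemma sum_snd_le {l : List (ℕ × ℕ)} (h : ∀ a ∈ l, a.2 ≤ a.1) :
    (l.map Prod.snd).sum ≤ (l.map Prod.fst).sum := by
  induction l with
  | nil => simp
  | cons x l ih =>
    simp only [List.map_cons, List.sum_cons]
    have h1 := h x (by simp)
    have h2 := ih fun a ha => h a (by simp [ha])
    omega

lemma tot_prod {l : List (ℕ × ℕ)} (hp : ∀ a ∈ l, (pp a).Prime) (hn : (l.map pp).Nodup)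
    {m : ℕ} (hm : ∀ a ∈ l, Nat.Coprime (pp a) m) :
    Nat.totient (m * (l.map pp).prod) =
      Nat.totient m * (l.map fun a => 2 ^ a.1 * 3 ^ a.2).prod := by
  induction l with
  | nil => simp
  | cons x l ih =>
    simp only [List.map_cons, List.prod_cons]
    rw [List.map_cons, List.nodup_cons] at hn
    have ih' := ih (fun a ha => hp a (by simp [ha])) hn.2 (fun a ha => hm a (by simp [ha]))
    have hc : Nat.Coprime (pp x) (m * (l.map pp).prod) := by
      refine Nat.Coprime.mul_right (hm x (by simp)) ?_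
      rw [Nat.coprime_list_prod_right_iff]
      intro n hn'
      rw [List.mem_map] at hn'
      obtain ⟨a, ha, rfl⟩ := hn'
      rw [Nat.coprime_primes (hp x (by simp)) (hp a (by simp [ha]))]
      intro h
      apply hn.1
      rw [h]
      exact List.mem_map_of_mem ha
    have e : m * (pp x * (l.map pp).prod) = pp x * (m * (l.map pp).prod) := by ring
    rw [e, Nat.totient_mul hc, ih', Nat.totient_prime (hp x (by simp))]
    have : pp x - 1 = 2 ^ x.1 * 3 ^ x.2 := by unfold pp; omega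
    rw [this]
    ring

/-- the certificate -/
theorem cert : Pool.Agent.H410R2.Cert := by
  intro t ht1 ht2
  obtain ⟨l, hl, hs⟩ := sub_exists EL EL_cnd (t - 1) (by rw [EL_sum]; omega)
  have hmem : ∀ a ∈ l, a ∈ EL := fun a ha => hl.subset ha
  have hp : ∀ a ∈ l, (pp a).Prime := fun a ha => pp_prime (hmem a ha)
  have hnd : (l.map pp).Nodup := (hl.map pp).nodup EL_nodup
  set I := (l.map Prod.fst).sum with hI
  set J := (l.map Prod.snd).sum with hJ
  have hJI : J ≤ I := sum_snd_le fun a ha => (EL_big a (hmem a ha)).2.2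
  have hq := prod_q l
  rw [← hI, ← hJ] at hq
  -- product bound
  have hb : 3 * (l.map pp).prod < 4 * (2 ^ I * 3 ^ J) := by
    have h1 := sub_prod hl
    have h2 := EL_prod
    have h3 : 0 < (EL.map fun a => 2 ^ a.1 * 3 ^ a.2).prod := by
      apply List.prod_pos
      intro x hx
      rw [List.mem_map] at hx
      obtain ⟨a, _, rfl⟩ := hx
      positivity
    rw [← hq]
    have h4 : 0 < (l.map fun a => 2 ^ a.1 * 3 ^ a.2).prod := by
      rw [hq]; positivity
    set P := (EL.map pp).prod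
    set Q := (EL.map fun a => 2 ^ a.1 * 3 ^ a.2).prod
    set P' := (l.map pp).prod
    set Q' := (l.map fun a => 2 ^ a.1 * 3 ^ a.2).prod
    have h5 : (3 * P') * Q < (4 * Q') * Q := by
      calc (3 * P') * Q = 3 * (P' * Q) := by ring
        _ ≤ 3 * (P * Q') := Nat.mul_le_mul_left _ h1
        _ = (3 * P) * Q' := by ring
        _ < (4 * Q) * Q' := Nat.mul_lt_mul_of_pos_right h2 h4
        _ = (4 * Q') * Q := by ring
    exact Nat.lt_of_mul_lt_mul_right h5
  have hPpos : 0 < (l.map pp).prod := by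
    apply List.prod_pos
    intro x hx
    rw [List.mem_map] at hx
    obtain ⟨a, ha, rfl⟩ := hx
    exact (hp a ha).pos
  have h36 : 36 ^ t = 2 ^ (2 * t) * 3 ^ (2 * t) := by
    rw [← mul_pow, pow_mul]; norm_num
  have hc3 : ∀ (c : ℕ), ∀ a ∈ l, Nat.Coprime (pp a) (3 ^ c) := by
    intro c a ha
    apply Nat.Coprime.pow_right
    rw [Nat.coprime_primes (hp a ha) Nat.prime_three]
    exact (EL_big a (hmem a ha)).1
  have hc7 : ∀ a ∈ l, Nat.Coprime (pp a) 7 := by
    intro a ha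
    rw [Nat.coprime_primes (hp a ha) (by norm_num)]
    exact (EL_big a (hmem a ha)).2.1
  constructor
  · refine ⟨3 ^ (2 * t + 1 - J) * (l.map pp).prod, by positivity, ?_, ?_⟩
    · have h1 : 3 * (3 ^ (2 * t + 1 - J) * (l.map pp).prod) < 3 * 36 ^ t := by
        calc 3 * (3 ^ (2 * t + 1 - J) * (l.map pp).prod)
            = 3 ^ (2 * t + 1 - J) * (3 * (l.map pp).prod) := by ring
          _ < 3 ^ (2 * t + 1 - J) * (4 * (2 ^ I * 3 ^ J)) :=
              Nat.mul_lt_mul_of_pos_left hb (by positivity)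
          _ = (4 * 2 ^ I) * (3 ^ (2 * t + 1 - J) * 3 ^ J) := by ring
          _ = 2 ^ (2 * t) * 3 ^ (2 * t + 1) := by
              rw [← pow_add 3]
              have e1 : 2 * t + 1 - J + J = 2 * t + 1 := by omega
              have e2 : 4 * 2 ^ I = 2 ^ (2 * t) := by
                have : 2 * t = I + 2 := by omega
                rw [this, pow_add]; ring
              rw [e1, e2]
          _ = 3 * 36 ^ t := by rw [h36, pow_succ 3]; ring
      exact Nat.lt_of_mul_lt_mul_left h1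
    · rw [tot_prod hp hnd (hc3 _), hq, Nat.totient_prime_pow Nat.prime_three (by omega)]
      have e1 : 36 ^ t / 2 = 2 ^ (2 * t - 1) * 3 ^ (2 * t) := by
        have : 2 ^ (2 * t) = 2 * 2 ^ (2 * t - 1) := by
          rw [← pow_succ']; congr 1; omega
        rw [h36, this, mul_assoc, Nat.mul_div_cancel_left _ (by norm_num)]
      rw [e1]
      apply dvd_of_eq
      have e2 : 2 * t - 1 = I + 1 := by omega
      have e3 : 2 * t = (2 * t + 1 - J - 1) + J := by omega
      rw [e2]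
      conv_lhs => rw [e3]
      rw [pow_add 3, pow_succ 2]
      ring
  · refine ⟨(3 ^ (2 * t - 1 - J) * 7) * (l.map pp).prod, by positivity, ?_, ?_⟩
    · have h1 : 3 * ((3 ^ (2 * t - 1 - J) * 7) * (l.map pp).prod) < 3 * 36 ^ t := by
        calc 3 * ((3 ^ (2 * t - 1 - J) * 7) * (l.map pp).prod)
            = (7 * 3 ^ (2 * t - 1 - J)) * (3 * (l.map pp).prod) := by ring
          _ < (7 * 3 ^ (2 * t - 1 - J)) * (4 * (2 ^ I * 3 ^ J)) :=
              Nat.mul_lt_mul_of_pos_left hb (by positivity)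
          _ = 7 * (4 * 2 ^ I) * (3 ^ (2 * t - 1 - J) * 3 ^ J) := by ring
          _ = 7 * 2 ^ (2 * t) * 3 ^ (2 * t - 1) := by
              rw [← pow_add 3]
              have e1 : 2 * t - 1 - J + J = 2 * t - 1 := by omega
              have e2 : 4 * 2 ^ I = 2 ^ (2 * t) := by
                have : 2 * t = I + 2 := by omega
                rw [this, pow_add]; ring
              rw [e1, e2]
          _ ≤ 9 * 2 ^ (2 * t) * 3 ^ (2 * t - 1) := by gcongr; norm_num
          _ = 3 * 36 ^ t := by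
              have : 3 ^ (2 * t) = 3 * 3 ^ (2 * t - 1) := by
                rw [← pow_succ']; congr 1; omega
              rw [h36, this]; ring
      exact Nat.lt_of_mul_lt_mul_left h1
    · rw [tot_prod hp hnd (fun a ha => Nat.Coprime.mul_right (hc3 _ a ha) (hc7 a ha)), hq,
        Nat.totient_mul (Nat.Coprime.pow_left _ (by norm_num)),
        Nat.totient_prime_pow Nat.prime_three (by omega),
        Nat.totient_prime (by norm_num : Nat.Prime 7)]
      have e1 : 36 ^ t / 3 = 2 ^ (2 * t) * 3 ^ (2 * t - 1) := by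
        have : 3 ^ (2 * t) = 3 * 3 ^ (2 * t - 1) := by
          rw [← pow_succ']; congr 1; omega
        rw [h36, this, Nat.mul_left_comm, Nat.mul_div_cancel_left _ (by norm_num)]
      rw [e1]
      apply dvd_of_eq
      have e2 : 2 ^ (2 * t) = 2 ^ I * 2 ^ 2 := by
        rw [← pow_add]; congr 1; omega
      obtain ⟨c, hc⟩ : ∃ c, c = 2 * t - 1 - J - 1 := ⟨_, rfl⟩
      have e3 : 3 ^ (2 * t - 1) = 3 ^ c * 3 * 3 ^ J := by
        rw [← pow_succ, ← pow_add]; congr 1; omega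
      rw [e2, e3, ← hc]
      ring

end Pool.Agent.H307R2.CertA
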